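import Mathlib
import Pool.Agent.R259.RS.Round

set_option autoImplicit false

/-!
# `vol ^ (1 / 3) ∫ σ₂ ≤ J₂ (S ^ 3)` for rotationally symmetric metrics

A rotationally symmetric metric `dr ^ 2 + f (r) ^ 2 g_{S^2}` on `S ^ 3` or on `S ^ 2 × S ^ 1` is
given by its profile `f`. Its Ricci tensor has the eigenvalues `ricR = 2 Kr` (direction `∂_r`) and
`ricT = Kr + Kt` (twice), where `Kr = - f'' / f` and `Kt = (1 - f' ^ 2) / f ^ 2` are the sectional
curvatures; `lamR`, `lamT`, `lamT` are the eigenvalues of the Schouten tensor `Ric - (R / 4) g`, and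
the volume element is `4 π f ^ 2 dr`. All this is in `Pool.Agent.R259.RS.Base`.

The proof is a calibration. Let `m` be the maximum of `f` and `c = √(1 - f ^ 2 / m ^ 2)`. Positive
scalar curvature gives `|f'| ≤ 1`, and for a suitable function `ψ` the derivative of
`Φ = ψ (f) - (3 f' - f' ^ 3) / (3 f)` minus the density of
`(∫ σ₂ + vol / (4 m ^ 4)) / (4 π)` is
`(f' - c) ^ 2 (6 - f' ^ 2 - 2 c f' - 3 c ^ 2) / (12 f ^ 2) ≥ 0`. Integrating from both poles to the
maximum gives `∫ σ₂ + vol / (4 m ^ 4) ≤ 2 π ^ 2 / m`, and the claim follows from the inequality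
between the arithmetic and the geometric mean.
-/

namespace Pool.Agent.Results.MP_be6710_gt.RotationallySymmetric

open Set Pool.Agent.R259.RS

/-- **The inequality of Q1 for rotationally symmetric metrics.** -/
theorem result :
    -- metrics on `S ^ 3` with positive scalar curvature
    (∀ (f : ℝ → ℝ) (L : ℝ), IsSphere f L → (∀ r ∈ Ioo 0 L, 0 < scal f r) →
      total (fun _ => 1) f L ^ (1 / 3 : ℝ) * total (sigma2 f) f L ≤
        3 / 4 * (2 * Real.pi ^ 2) ^ (4 / 3 : ℝ)) ∧
    -- metrics on `S ^ 2 × S ^ 1` with positive scalar curvature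
    (∀ (f : ℝ → ℝ) (L : ℝ), IsCircle f L → (∀ r, 0 < scal f r) →
      total (fun _ => 1) f L ^ (1 / 3 : ℝ) * total (sigma2 f) f L < 0) ∧
    -- the unit sphere
    (IsSphere Real.sin Real.pi ∧ (∀ r ∈ Ioo 0 Real.pi, 0 < scal Real.sin r) ∧
      total (fun _ => 1) Real.sin Real.pi ^ (1 / 3 : ℝ) *
        total (sigma2 Real.sin) Real.sin Real.pi = 3 / 4 * (2 * Real.pi ^ 2) ^ (4 / 3 : ℝ)) := by
  have hpi := Real.pi_pos
  refine ⟨fun f L h hs => h.J2_le hs, fun f L h hs => ?_, isSphere_sin, fun r hr => ?_, ?_⟩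
  · have hV : 0 < total (fun _ => 1) f L := by
      rw [total0]
      have : 0 < ∫ r in (0 : ℝ)..L, f r ^ 2 := by
        refine intervalIntegral.intervalIntegral_pos_of_pos_on
          (((c0 h.smooth).pow 2).intervalIntegrable _ _) ?_ h.L_pos
        intro r _
        have := h.pos r
        positivity
      positivity
    exact mul_neg_of_pos_of_neg (Real.rpow_pos_of_pos hV _) (h.signs hs).2
  · rw [scal_sin hr]
    norm_num
  · rw [total0_sin, total2_sin]
    have h1 : (2 * Real.pi ^ 2) ^ (4 / 3 : ℝ) =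
        (2 * Real.pi ^ 2) ^ (1 / 3 : ℝ) * (2 * Real.pi ^ 2) := by
      have : (4 / 3 : ℝ) = 1 / 3 + 1 := by norm_num
      rw [this, Real.rpow_add_one (by positivity)]
    rw [h1]
    ring

end Pool.Agent.Results.MP_be6710_gt.RotationallySymmetric
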